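import Pool.Agent.H97.NR.StmtsC

/-! Elementary counting lemmas for project NR. -/

set_option linter.unusedVariables false

namespace Pool.NR.H32

open Pool.NR

theorem cnt_congr {α : Type*} {P Q : α → Prop} (h : ∀ x, P x ↔ Q x) : cnt P = cnt Q := by
  have : P = Q := funext fun x => propext (h x)
  rw [this]

theorem cnt_or {α : Type*} [Finite α] {P Q : α → Prop} (h : ∀ x, P x → Q x → False) :
    cnt (fun x => P x ∨ Q x) = cnt P + cnt Q := by
  unfold cnt
  have h1 : Nat.card {x // P x ∨ Q x} = Set.ncard ({x | P x} ∪ {x | Q x}) := by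
    rw [← Nat.card_coe_set_eq]; rfl
  rw [h1, Set.ncard_union_eq]
  · rw [← Nat.card_coe_set_eq, ← Nat.card_coe_set_eq]; rfl
  · rw [Set.disjoint_left]
    intro x hx hy
    exact h x hx hy

theorem cnt_image {α β : Type*} {P : α → Prop} (f : α → β)
    (hf : ∀ x y, P x → P y → f x = f y → x = y) :
    cnt (fun y => ∃ x, P x ∧ f x = y) = cnt P := by
  unfold cnt
  symm
  apply Nat.card_eq_of_bijective (fun x : {x // P x} => (⟨f x.1, x.1, x.2, rfl⟩ :
    {y // ∃ x, P x ∧ f x = y}))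
  constructor
  · rintro ⟨x, hx⟩ ⟨y, hy⟩ h
    simp only [Subtype.mk.injEq] at h
    exact Subtype.ext (hf x y hx hy h)
  · rintro ⟨y, x, hx, rfl⟩
    exact ⟨⟨x, hx⟩, rfl⟩

theorem cnt_eq {α : Type*} (a : α) : cnt (fun x => x = a) = 1 := by
  unfold cnt
  exact Nat.card_unique

theorem cnt_false {α : Type*} {P : α → Prop} (h : ∀ x, ¬ P x) : cnt P = 0 := by
  unfold cnt
  haveI : IsEmpty {x // P x} := ⟨fun x => h x.1 x.2⟩
  exact Nat.card_of_isEmpty

theorem cnt_true {α : Type*} : cnt (fun _ : α => True) = Nat.card α := by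
  unfold cnt
  exact Nat.card_congr (Equiv.subtypeUnivEquiv fun _ => trivial)

theorem cnt_zmod (p : ℕ) [Fact p.Prime] : cnt (fun _ : ZMod p => True) = p := by
  rw [cnt_true, Nat.card_zmod]

/-- Split off one element. -/
theorem cnt_insert {α : Type*} [Finite α] {P Q : α → Prop} (a : α) (h : ∀ x, P x ↔ x = a ∨ Q x)
    (ha : ¬ Q a) : cnt P = 1 + cnt Q := by
  rw [cnt_congr h, cnt_or (P := fun x => x = a) (Q := Q)
    (fun x hx hq => ha (hx ▸ hq)), cnt_eq]

theorem krep_one (p : ℕ) [Fact p.Prime] (k : ℕ) : KRep p k (1 : ZMod p) := by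
  refine ⟨one_ne_zero, fun t ht => ?_⟩
  rw [one_mul]
  have h1 : (1 : ZMod p).val = 1 := by
    haveI : Fact (1 < p) := ⟨(Fact.out : p.Prime).one_lt⟩
    exact ZMod.val_one p
  rw [h1, Nat.one_le_iff_ne_zero]
  intro h
  exact (pow_ne_zero k ht) ((ZMod.val_eq_zero _).1 h)

theorem neg_one_ne_one {p : ℕ} [Fact p.Prime] (hp : p ≠ 2) : (-1 : ZMod p) ≠ 1 := by
  haveI : Fact (2 < p) := ⟨lt_of_le_of_ne (Fact.out : p.Prime).two_le (Ne.symm hp)⟩
  exact ZMod.neg_one_ne_one

theorem gcd_two {p : ℕ} [Fact p.Prime] : Nat.gcd 2 (p - 1) = if p = 2 then 1 else 2 := by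
  split_ifs with h
  · subst h; rfl
  · have h1 : Odd p := (Fact.out : p.Prime).odd_of_ne_two h
    obtain ⟨k, rfl⟩ := h1
    simp

/-- Finite types of the tables. -/
instance fin33 (p : ℕ) [Fact p.Prime] : Finite (Fin 3 → Fin 3 → ZMod p) := inferInstance

end Pool.NR.H32
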