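import Pool.Agent.H32.NR.Cnt

/-! Counts of the normal forms of types 4a, 4b. -/

set_option linter.unusedVariables false

namespace Pool.NR

open Pool.NR.H32

theorem h4b (hn : NPTStmt) (hk : NKRStmt) : H4BStmt := by
  intro p _
  have h01 : (0 : ZMod p) ≠ 1 := zero_ne_one
  obtain ⟨-, -, -, -, -, -, -, -, hS⟩ := hn p
  have hz : ∀ k, 0 < k → cnt (fun c : ZMod p => c = 0 ∨ KRep p k c) = 1 + Nat.gcd k (p - 1) := by
    intro k hk'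
    rw [cnt_or (P := fun c : ZMod p => c = 0) (Q := fun c => KRep p k c)
      (fun x hx h => h.1 hx), cnt_eq, hk p k hk']
  have key : ∀ x : ZMod p × ZMod p × ZMod p × ZMod p, NF4b x.1 x.2.1 x.2.2.1 x.2.2.2 ↔
      (∃ m, True ∧ ((1, m, 0, 1) : ZMod p × ZMod p × ZMod p × ZMod p) = x) ∨
      ((∃ m, (m = 0 ∨ KRep p 3 m) ∧ ((0, m, 0, 1) : ZMod p × ZMod p × ZMod p × ZMod p) = x) ∨
      ((∃ m, True ∧ ((1, 1, m, 0) : ZMod p × ZMod p × ZMod p × ZMod p) = x) ∨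
      ((∃ m, Sq0 m ∧ ((1, 0, m, 0) : ZMod p × ZMod p × ZMod p × ZMod p) = x) ∨
      ((∃ m, Sq0 m ∧ ((0, 0, m, 0) : ZMod p × ZMod p × ZMod p × ZMod p) = x) ∨
      (∃ m, (m = 0 ∨ KRep p 4 m) ∧
        ((0, 1, m, 0) : ZMod p × ZMod p × ZMod p × ZMod p) = x))))) := by
    rintro ⟨x, y, z, w⟩
    constructor
    · intro h
      change NF4b x y z w at h
      cases h with
      | a1 m => exact Or.inl ⟨_, trivial, rfl⟩
      | a2 m h => exact Or.inr (Or.inl ⟨_, h, rfl⟩)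
      | b1 m => exact Or.inr (Or.inr (Or.inl ⟨_, trivial, rfl⟩))
      | b2 m h => exact Or.inr (Or.inr (Or.inr (Or.inl ⟨_, h, rfl⟩)))
      | b3 m h => exact Or.inr (Or.inr (Or.inr (Or.inr (Or.inl ⟨_, h, rfl⟩))))
      | b4 m h => exact Or.inr (Or.inr (Or.inr (Or.inr (Or.inr ⟨_, h, rfl⟩))))
    · simp only [Prod.mk.injEq]
      rintro (⟨m, -, rfl, rfl, rfl, rfl⟩ | ⟨m, h, rfl, rfl, rfl, rfl⟩ |
        ⟨m, h, rfl, rfl, rfl, rfl⟩ | ⟨m, h, rfl, rfl, rfl, rfl⟩ |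
        ⟨m, h, rfl, rfl, rfl, rfl⟩ | ⟨m, h, rfl, rfl, rfl, rfl⟩)
      · exact NF4b.a1 _
      · exact NF4b.a2 _ h
      · exact NF4b.b1 _
      · exact NF4b.b2 _ h
      · exact NF4b.b3 _ h
      · exact NF4b.b4 _ h
  rw [cnt_congr key, cnt_or, cnt_or, cnt_or, cnt_or, cnt_or, cnt_image, cnt_image, cnt_image,
    cnt_image, cnt_image, cnt_image, hS, cnt_zmod, hz 3 (by norm_num), hz 4 (by norm_num)]
  · split_ifs with hp
    · subst hp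
      rfl
    · omega
  · rintro x y - - h
    simpa using h
  · rintro x y - - h
    simpa using h
  · rintro x y - - h
    simpa using h
  · rintro x y - - h
    simpa using h
  · rintro x y - - h
    simpa using h
  · rintro x y - - h
    simpa using h
  · rintro x ⟨n, hn, rfl⟩ ⟨m, hm, h⟩
    simp at h
  · rintro x ⟨n, hn, rfl⟩ (⟨m, hm, h⟩ | ⟨m, hm, h⟩) <;> simp at h
  · rintro x ⟨n, hn, rfl⟩ (⟨m, hm, h⟩ | ⟨m, hm, h⟩ | ⟨m, hm, h⟩) <;> simp at h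
  · rintro x ⟨n, hn, rfl⟩ (⟨m, hm, h⟩ | ⟨m, hm, h⟩ | ⟨m, hm, h⟩ | ⟨m, hm, h⟩) <;> simp at h
  · rintro x ⟨n, hn, rfl⟩ (⟨m, hm, h⟩ | ⟨m, hm, h⟩ | ⟨m, hm, h⟩ | ⟨m, hm, h⟩ | ⟨m, hm, h⟩) <;>
      simp at h

theorem h4a (hn : NPTStmt) (hk : NKRStmt) : H4AStmt := by
  intro p _
  have hp1 : 1 < p := (Fact.out : p.Prime).one_lt
  have hp0 : 0 < p := by omega
  have hpp : p < p ^ 2 := by nlinarith
  haveI : NeZero (p ^ 2) := ⟨by positivity⟩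
  haveI : Fact (1 < p ^ 2) := ⟨by omega⟩
  have h01 : (0 : ZMod p) ≠ 1 := zero_ne_one
  have h01' : (0 : ZMod (p ^ 2)) ≠ 1 := zero_ne_one
  have hpv : ((p : ℕ) : ZMod (p ^ 2)).val = p := ZMod.val_cast_of_lt hpp
  have hp0' : ((p : ℕ) : ZMod (p ^ 2)) ≠ 0 := by
    intro h
    rw [h, ZMod.val_zero] at hpv
    omega
  have hp1' : ((p : ℕ) : ZMod (p ^ 2)) ≠ 1 := by
    intro h
    rw [h, ZMod.val_one] at hpv
    omega
  have hav : ∀ a : ZMod p, (((p * a.val : ℕ)) : ZMod (p ^ 2)).val = p * a.val := by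
    intro a
    apply ZMod.val_cast_of_lt
    have := ZMod.val_lt a
    nlinarith
  have ha1 : ∀ a : ZMod p, (((p * a.val : ℕ)) : ZMod (p ^ 2)) ≠ 1 := by
    intro a h
    have h1 := hav a
    rw [h, ZMod.val_one] at h1
    have : p ∣ 1 := ⟨_, h1⟩
    have := Nat.le_of_dvd one_pos this
    omega
  have hainj : ∀ a b : ZMod p, (((p * a.val : ℕ)) : ZMod (p ^ 2)) = ((p * b.val : ℕ) : ZMod (p ^ 2))
      → a = b := by
    intro a b h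
    have h1 := hav a
    rw [h, hav b] at h1
    exact (ZMod.val_injective p (Nat.eq_of_mul_eq_mul_left hp0 h1)).symm
  obtain ⟨hB, -, hP0, hP1, -, -, -, hne, hS⟩ := hn p
  have key : ∀ x : ZMod (p ^ 2) × ZMod p × ZMod p × ZMod p, NF4a x.1 x.2.1 x.2.2.1 x.2.2.2 ↔
      (∃ m, m ≠ 0 ∧ ((1, 0, 1, m) : ZMod (p ^ 2) × ZMod p × ZMod p × ZMod p) = x) ∨
      ((∃ m, KRep p 2 m ∧ ((1, 0, 0, m) : ZMod (p ^ 2) × ZMod p × ZMod p × ZMod p) = x) ∨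
      ((∃ m : ZMod p × ZMod p, Pt0 m.1 m.2 ∧
        ((1, m.1, m.2, 0) : ZMod (p ^ 2) × ZMod p × ZMod p × ZMod p) = x) ∨
      ((∃ m, m ≠ 0 ∧ (((p : ZMod (p ^ 2)), 0, 1, m) :
        ZMod (p ^ 2) × ZMod p × ZMod p × ZMod p) = x) ∨
      (x = (0, 0, 1, 1) ∨
      ((∃ m : ZMod p, Sq0 m ∧ ((((p * m.val : ℕ) : ZMod (p ^ 2)), 0, 0, 1) :
        ZMod (p ^ 2) × ZMod p × ZMod p × ZMod p) = x) ∨
      ((∃ m : ZMod p × ZMod p, (Pt m.1 m.2 ∧ m.1 + m.2 ≠ 0) ∧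
        ((0, m.1, m.2, 0) : ZMod (p ^ 2) × ZMod p × ZMod p × ZMod p) = x) ∨
      ((∃ m, Bit m ∧ ((0, m, -m, 0) : ZMod (p ^ 2) × ZMod p × ZMod p × ZMod p) = x) ∨
      (∃ m, Bit m ∧ (((p : ZMod (p ^ 2)), m, -m, 0) :
        ZMod (p ^ 2) × ZMod p × ZMod p × ZMod p) = x)))))))) := by
    rintro ⟨x, y, z, w⟩
    constructor
    · intro h
      change NF4a x y z w at h
      cases h with
      | a1 m h => exact Or.inl ⟨_, h, rfl⟩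
      | a2 m h => exact Or.inr (Or.inl ⟨_, h, rfl⟩)
      | a3 b c h => exact Or.inr (Or.inr (Or.inl ⟨(y, z), h, rfl⟩))
      | b1 m h => exact Or.inr (Or.inr (Or.inr (Or.inl ⟨_, h, rfl⟩)))
      | b2 => exact Or.inr (Or.inr (Or.inr (Or.inr (Or.inl rfl))))
      | b3 m h => exact Or.inr (Or.inr (Or.inr (Or.inr (Or.inr (Or.inl ⟨_, h, rfl⟩)))))
      | b4 b c h h' =>
        exact Or.inr (Or.inr (Or.inr (Or.inr (Or.inr (Or.inr (Or.inl ⟨(y, z), ⟨h, h'⟩, rfl⟩))))))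
      | b5 b h =>
        exact Or.inr (Or.inr (Or.inr (Or.inr (Or.inr (Or.inr (Or.inr (Or.inl ⟨_, h, rfl⟩)))))))
      | b6 b h =>
        exact Or.inr (Or.inr (Or.inr (Or.inr (Or.inr (Or.inr (Or.inr (Or.inr ⟨_, h, rfl⟩)))))))
    · simp only [Prod.mk.injEq]
      rintro (⟨m, h, rfl, rfl, rfl, rfl⟩ | ⟨m, h, rfl, rfl, rfl, rfl⟩ |
        ⟨m, h, rfl, rfl, rfl, rfl⟩ | ⟨m, h, rfl, rfl, rfl, rfl⟩ | ⟨rfl, rfl, rfl, rfl⟩ |
        ⟨m, h, rfl, rfl, rfl, rfl⟩ | ⟨m, h, rfl, rfl, rfl, rfl⟩ |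
        ⟨m, h, rfl, rfl, rfl, rfl⟩ | ⟨m, h, rfl, rfl, rfl, rfl⟩)
      · exact NF4a.a1 _ h
      · exact NF4a.a2 _ h
      · exact NF4a.a3 _ _ h
      · exact NF4a.b1 _ h
      · exact NF4a.b2
      · exact NF4a.b3 _ h
      · exact NF4a.b4 _ _ h.1 h.2
      · exact NF4a.b5 _ h
      · exact NF4a.b6 _ h
  rw [cnt_congr key, cnt_or, cnt_or, cnt_or, cnt_or, cnt_or, cnt_or, cnt_or, cnt_or,
    cnt_image, cnt_image, cnt_image, cnt_image, cnt_eq, cnt_image, cnt_image,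
    cnt_image, cnt_image, hk p 2 (by norm_num), gcd_two, hS, hB, hP0, hP1]
  · have h0 := hne 0
    split_ifs with hp
    · omega
    · omega
  · rintro x y - - h
    simpa using h
  · rintro x y - - h
    simpa using h
  · rintro ⟨x, x'⟩ ⟨y, y'⟩ - - h
    simpa using h
  · rintro x y - - h
    simp only [Prod.mk.injEq] at h
    exact hainj _ _ h.1
  · rintro x y - - h
    simpa using h
  · rintro ⟨x, x'⟩ ⟨y, y'⟩ - - h
    simpa using h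
  · rintro x y - - h
    simpa using h
  · rintro x y - - h
    simpa using h
  · rintro x ⟨n, hn, rfl⟩ ⟨m, hm, h⟩
    simp only [Prod.mk.injEq] at h
    exact hp0' h.1
  · rintro x ⟨n, hn, rfl⟩ (⟨m, hm, h⟩ | ⟨m, hm, h⟩)
    · simp only [Prod.mk.injEq] at h
      exact hn.2 (by rw [← h.2.1, ← h.2.2.1]; ring)
    · simp only [Prod.mk.injEq] at h
      exact hp0' h.1
  · rintro x ⟨n, hn, rfl⟩ (⟨m, hm, h⟩ | ⟨m, hm, h⟩ | ⟨m, hm, h⟩) <;> simp at h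
  · rintro x rfl (⟨m, hm, h⟩ | ⟨m, hm, h⟩ | ⟨m, hm, h⟩ | ⟨m, hm, h⟩) <;> simp at h
  · rintro x ⟨n, hn, rfl⟩ (h | ⟨m, hm, h⟩ | ⟨m, hm, h⟩ | ⟨m, hm, h⟩ | ⟨m, hm, h⟩)
    · simp only [Prod.mk.injEq] at h
      exact hp0' h.1
    · simp at h
    · simp only [Prod.mk.injEq] at h
      exact hn h.2.2.2.symm
    · simp only [Prod.mk.injEq] at h
      exact hn h.2.2.2.symm
    · simp only [Prod.mk.injEq] at h
      exact hn h.2.2.2.symm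
  · rintro x ⟨n, hn, rfl⟩ (⟨m, hm, h⟩ | h | ⟨m, hm, h⟩ | ⟨m, hm, h⟩ | ⟨m, hm, h⟩ | ⟨m, hm, h⟩) <;>
      simp only [Prod.mk.injEq] at h
    · exact hp1' h.1
    · exact h01' h.1.symm
    · exact ha1 _ h.1
    · exact h01' h.1
    · exact h01' h.1
    · exact hp1' h.1
  · rintro x ⟨n, hn, rfl⟩ (⟨m, hm, h⟩ | ⟨m, hm, h⟩ | h | ⟨m, hm, h⟩ | ⟨m, hm, h⟩ | ⟨m, hm, h⟩ |
      ⟨m, hm, h⟩) <;> simp only [Prod.mk.injEq] at h
    · exact hn.1 h.2.2.2.symm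
    · exact hp1' h.1
    · exact h01' h.1.symm
    · exact ha1 _ h.1
    · exact h01' h.1
    · exact h01' h.1
    · exact hp1' h.1
  · rintro x ⟨n, hn, rfl⟩ (⟨m, hm, h⟩ | ⟨m, hm, h⟩ | ⟨m, hm, h⟩ | h | ⟨m, hm, h⟩ | ⟨m, hm, h⟩ |
      ⟨m, hm, h⟩ | ⟨m, hm, h⟩) <;> simp only [Prod.mk.injEq] at h
    · exact h01 h.2.2.1
    · exact hn h.2.2.2.symm
    · exact hp1' h.1
    · exact h01' h.1.symm
    · exact ha1 _ h.1
    · exact h01' h.1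
    · exact h01' h.1
    · exact hp1' h.1

end Pool.NR
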