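import Pool.Agent.H32.NR.Cnt

/-! Counts of the normal forms of types 5b, 5a, 5i. -/

set_option linter.unusedVariables false

namespace Pool.NR

open Pool.NR.H32

theorem h5b : H5BStmt := by
  intro p _
  have h01 : (0 : ZMod p) ≠ 1 := zero_ne_one
  rw [cnt_insert (Q := fun x : ZMod p × ZMod p => x = (0, 1) ∨ x = (0, 0))
    ((1, 0) : ZMod p × ZMod p), cnt_insert (Q := fun x : ZMod p × ZMod p => x = (0, 0))
    ((0, 1) : ZMod p × ZMod p), cnt_eq]
  · intro x; exact Iff.rfl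
  · simp
  · rintro ⟨x, y⟩
    constructor
    · intro h
      change NF5b x y at h
      cases h
      · exact Or.inl rfl
      · exact Or.inr (Or.inl rfl)
      · exact Or.inr (Or.inr rfl)
    · simp only [Prod.mk.injEq]
      rintro (⟨rfl, rfl⟩ | ⟨rfl, rfl⟩ | ⟨rfl, rfl⟩)
      · exact NF5b.a1
      · exact NF5b.a2
      · exact NF5b.a3
  · simp

theorem h5a (hk : NKRStmt) : H5AStmt := by
  intro p _
  have h01 : (0 : ZMod p) ≠ 1 := zero_ne_one
  have key : ∀ x : ZMod p × ZMod p × ZMod p, NF5a x.1 x.2.1 x.2.2 ↔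
      x = (1, 0, 0) ∨ (x = (0, 0, 0) ∨ ((∃ m, KRep p 2 m ∧ ((0, m, 0) : ZMod p × ZMod p × ZMod p) = x)
        ∨ ((∃ n, KRep p 3 n ∧ ((0, 0, n) : ZMod p × ZMod p × ZMod p) = x) ∨
          (p = 2 ∧ x = (0, 1, 1))))) := by
    rintro ⟨x, y, z⟩
    constructor
    · intro h
      change NF5a x y z at h
      cases h with
      | a1 => exact Or.inl rfl
      | a2 m h => exact Or.inr (Or.inr (Or.inl ⟨_, h, rfl⟩))
      | a3 h => exact Or.inr (Or.inr (Or.inr (Or.inr ⟨h, rfl⟩)))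
      | a4 n h =>
        rcases h with h | h
        · subst h
          exact Or.inr (Or.inl rfl)
        · exact Or.inr (Or.inr (Or.inr (Or.inl ⟨_, h, rfl⟩)))
    · simp only [Prod.mk.injEq]
      rintro (⟨rfl, rfl, rfl⟩ | ⟨rfl, rfl, rfl⟩ | ⟨m, h, rfl, rfl, rfl⟩ | ⟨m, h, rfl, rfl, rfl⟩ |
        ⟨h, rfl, rfl, rfl⟩)
      · exact NF5a.a1
      · exact NF5a.a4 0 (Or.inl rfl)
      · exact NF5a.a2 _ h
      · exact NF5a.a4 _ (Or.inr h)
      · exact NF5a.a3 h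
  rw [cnt_congr key, cnt_or, cnt_or, cnt_or, cnt_or, cnt_eq, cnt_eq, cnt_image, cnt_image,
    hk p 2 (by norm_num), hk p 3 (by norm_num), gcd_two]
  · by_cases hp : p = 2
    · have : cnt (fun x : ZMod p × ZMod p × ZMod p => p = 2 ∧ x = (0, 1, 1)) = 1 := by
        rw [cnt_congr (Q := fun x => x = (0, 1, 1)) (fun x => by simp [hp]), cnt_eq]
      rw [this]
      subst hp
      rfl
    · rw [cnt_false (fun x h => hp h.1)]
      simp only [hp, if_false]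
      omega
  · rintro x y - - h
    simpa using h
  · rintro x y - - h
    simpa using h
  · rintro x ⟨n, hn, rfl⟩ ⟨-, h⟩
    simp at h
  · rintro x ⟨n, hn, rfl⟩ (⟨m, hm, h⟩ | ⟨-, h⟩)
    · simp at h
      exact hn.1 h.1.symm
    · simp at h
  · rintro x rfl (⟨m, hm, h⟩ | ⟨m, hm, h⟩ | ⟨-, h⟩)
    · simp at h
      exact hm.1 h
    · simp at h
      exact hm.1 h
    · simp at h
  · rintro x rfl (h | ⟨m, hm, h⟩ | ⟨m, hm, h⟩ | ⟨-, h⟩) <;> simp at h

theorem h5i (hn : NPTStmt) : H5IStmt := by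
  intro p _
  have h01 : (0 : ZMod p) ≠ 1 := zero_ne_one
  obtain ⟨hB, -, -, -, -, -, -, -, hS⟩ := hn p
  have key : ∀ x : ZMod p × ZMod p × ZMod p, NF5i x.1 x.2.1 x.2.2 ↔
      (∃ m, True ∧ ((m, 1, 1) : ZMod p × ZMod p × ZMod p) = x) ∨
      ((∃ m, Sq0 m ∧ ((m, 0, 1) : ZMod p × ZMod p × ZMod p) = x) ∨
      ((∃ m, Bit m ∧ ((m, 1, 0) : ZMod p × ZMod p × ZMod p) = x) ∨ x = (1, 0, 0))) := by
    rintro ⟨x, y, z⟩
    constructor
    · intro h
      change NF5i x y z at h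
      cases h with
      | a1 => exact Or.inl ⟨_, trivial, rfl⟩
      | a2 m h => exact Or.inr (Or.inl ⟨_, h, rfl⟩)
      | a3 m h => exact Or.inr (Or.inr (Or.inl ⟨_, h, rfl⟩))
      | a4 => exact Or.inr (Or.inr (Or.inr rfl))
    · simp only [Prod.mk.injEq]
      rintro (⟨m, -, rfl, rfl, rfl⟩ | ⟨m, h, rfl, rfl, rfl⟩ | ⟨m, h, rfl, rfl, rfl⟩ |
        ⟨rfl, rfl, rfl⟩)
      · exact NF5i.a1 _
      · exact NF5i.a2 _ h
      · exact NF5i.a3 _ h
      · exact NF5i.a4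
  rw [cnt_congr key, cnt_or, cnt_or, cnt_or, cnt_eq, cnt_image, cnt_image, cnt_image,
    hB, hS, cnt_zmod]
  · split_ifs with hp
    · omega
    · omega
  · rintro x y - - h
    simpa using h
  · rintro x y - - h
    simpa using h
  · rintro x y - - h
    simpa using h
  · rintro x ⟨n, hn, rfl⟩ h
    simp at h
  · rintro x ⟨n, hn, rfl⟩ (⟨m, hm, h⟩ | h) <;> simp at h
  · rintro x ⟨n, hn, rfl⟩ (⟨m, hm, h⟩ | ⟨m, hm, h⟩ | h) <;> simp at h

end Pool.NR
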