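import Pool.Agent.H32.NR.Cnt

/-! Counts of the normal forms of type 2a (E, N, total). -/

set_option linter.unusedVariables false

namespace Pool.NR

open Pool.NR.H32

private theorem ent {p : ℕ} {B B' : Fin 3 → Fin 3 → ZMod p} (h : B = B') (i j : Fin 3) :
    B i j = B' i j := by rw [h]

theorem n2e (hk : NKRStmt) : N2EStmt := by
  intro p _
  have h01 : (0 : ZMod p) ≠ 1 := zero_ne_one
  have key : ∀ B : Fin 3 → Fin 3 → ZMod p, NF2aE B ↔
      (∃ δ, True ∧ (![![1, 0, 0], ![0, 1, 1], ![0, 0, δ]] : Fin 3 → Fin 3 → ZMod p) = B) ∨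
      ((∃ s, (p ≠ 2 ∧ KRep p 2 s ∧ s ≠ 1) ∧
        (![![1, 0, 0], ![0, s, 1], ![0, 0, (4 * s)⁻¹]] : Fin 3 → Fin 3 → ZMod p) = B) ∨
      (p ≠ 2 ∧ B = ![![1, 0, 0], ![0, 0, 1], ![0, -1, 0]])) := by
    intro B
    constructor
    · intro h
      cases h with
      | m1 δ => exact Or.inl ⟨δ, trivial, rfl⟩
      | j1 h => exact Or.inr (Or.inr ⟨h, rfl⟩)
      | e1 s h h1 h2 => exact Or.inr (Or.inl ⟨s, ⟨h, h1, h2⟩, rfl⟩)
    · rintro (⟨δ, -, rfl⟩ | ⟨s, ⟨h, h1, h2⟩, rfl⟩ | ⟨h, rfl⟩)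
      · exact NF2aE.m1 _
      · exact NF2aE.e1 _ h h1 h2
      · exact NF2aE.j1 h
  rw [cnt_congr key, cnt_or, cnt_or, cnt_image, cnt_image, cnt_zmod]
  · split_ifs with hp
    · rw [cnt_false (fun x h => h.1 hp), cnt_false (fun x h => h.1 hp)]
      omega
    · have h1 : cnt (fun B : Fin 3 → Fin 3 → ZMod p =>
          p ≠ 2 ∧ B = ![![1, 0, 0], ![0, 0, 1], ![0, -1, 0]]) = 1 := by
        rw [cnt_congr (Q := fun x => x = ![![1, 0, 0], ![0, 0, 1], ![0, -1, 0]])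
          (fun x => ⟨fun h => h.2, fun h => ⟨hp, h⟩⟩), cnt_eq]
      have h2 : cnt (fun s : ZMod p => p ≠ 2 ∧ KRep p 2 s ∧ s ≠ 1) = 1 := by
        have h3 := hk p 2 (by norm_num)
        rw [gcd_two, if_neg hp, cnt_insert (Q := fun s : ZMod p => p ≠ 2 ∧ KRep p 2 s ∧ s ≠ 1)
          (1 : ZMod p)] at h3
        · omega
        · intro x
          constructor
          · intro h
            by_cases hx : x = 1
            · exact Or.inl hx
            · exact Or.inr ⟨hp, h, hx⟩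
          · rintro (rfl | h)
            · exact krep_one p 2
            · exact h.2.1
        · simp
      rw [h1, h2]
  · rintro x y - - h
    have := ent h 1 1
    simpa using this
  · rintro x y - - h
    have := ent h 2 2
    simpa using this
  · rintro x ⟨s, hs, rfl⟩ ⟨-, h⟩
    have := ent h 1 1
    exact hs.2.1.1 this
  · rintro x ⟨δ, -, rfl⟩ (⟨s, hs, h⟩ | ⟨-, h⟩)
    · have := ent h 1 1
      exact hs.2.2 this
    · have := ent h 1 1
      exact h01 this.symm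

theorem n2n (hn : NPTStmt) : N2NStmt := by
  intro p _
  have h01 : (0 : ZMod p) ≠ 1 := zero_ne_one
  obtain ⟨hB, -⟩ := hn p
  have key : ∀ B : Fin 3 → Fin 3 → ZMod p, NF2aN B ↔
      (∃ s, Bit s ∧ (![![0, 1, 0], ![1, 0, 0], ![0, 1, s]] : Fin 3 → Fin 3 → ZMod p) = B) ∨
      (p = 2 ∧ B = ![![0, 1, 0], ![1, 1, 0], ![0, 1, 1]]) := by
    intro B
    constructor
    · intro h
      cases h with
      | n1 s h => exact Or.inl ⟨s, h, rfl⟩
      | n2 h => exact Or.inr ⟨h, rfl⟩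
    · rintro (⟨s, h, rfl⟩ | ⟨h, rfl⟩)
      · exact NF2aN.n1 _ h
      · exact NF2aN.n2 h
  rw [cnt_congr key, cnt_or, cnt_image, hB]
  · split_ifs with hp
    · rw [cnt_congr (Q := fun x => x = ![![0, 1, 0], ![1, 1, 0], ![0, 1, 1]])
          (fun x => ⟨fun h => h.2, fun h => ⟨hp, h⟩⟩), cnt_eq]
    · rw [cnt_false (fun x h => hp h.1)]
  · rintro x y - - h
    have := ent h 2 2
    simpa using this
  · rintro x ⟨s, hs, rfl⟩ ⟨-, h⟩
    have := ent h 1 1
    exact h01 this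

theorem n2a (hs : N2SStmt) (hm : N2MStmt) (he : N2EStmt) (hn : N2NStmt) : N2AStmt := by
  intro p _
  have h01 : (0 : ZMod p) ≠ 1 := zero_ne_one
  have key : ∀ B : Fin 3 → Fin 3 → ZMod p, NF2a B ↔
      B = ![![0, 1, 0], ![-1, 0, 0], ![0, 0, 0]] ∨
        (NF2aS B ∨ (NF2aM B ∨ (NF2aE B ∨ NF2aN B))) := by
    intro B
    constructor
    · intro h
      cases h with
      | alt => exact Or.inl rfl
      | s B h => exact Or.inr (Or.inl h)
      | m B h => exact Or.inr (Or.inr (Or.inl h))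
      | e B h => exact Or.inr (Or.inr (Or.inr (Or.inl h)))
      | n B h => exact Or.inr (Or.inr (Or.inr (Or.inr h)))
    · rintro (rfl | h | h | h | h)
      · exact NF2a.alt
      · exact NF2a.s _ h
      · exact NF2a.m _ h
      · exact NF2a.e _ h
      · exact NF2a.n _ h
  have hS : ∀ B : Fin 3 → Fin 3 → ZMod p, NF2aS B → B 0 0 = 1 ∧ B 0 1 = 0 ∧ B 1 2 = 0 := by
    intro B h
    cases h <;> exact ⟨rfl, rfl, rfl⟩
  have hM : ∀ B : Fin 3 → Fin 3 → ZMod p, NF2aM B → B 0 0 = 1 ∧ B 0 1 = 1 := by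
    intro B h
    cases h; exact ⟨rfl, rfl⟩
  have hE : ∀ B : Fin 3 → Fin 3 → ZMod p, NF2aE B → B 0 0 = 1 ∧ B 0 1 = 0 ∧ B 1 2 = 1 := by
    intro B h
    cases h <;> exact ⟨rfl, rfl, rfl⟩
  have hN : ∀ B : Fin 3 → Fin 3 → ZMod p, NF2aN B → B 0 0 = 0 ∧ B 2 1 = 1 := by
    intro B h
    cases h <;> exact ⟨rfl, rfl⟩
  rw [cnt_congr key, cnt_or, cnt_or, cnt_or, cnt_or, cnt_eq, hs, hm, he, hn]
  · split_ifs with hp
    · omega
    · omega
  · intro B h h'
    exact h01 ((hN B h').1.symm.trans (hE B h).1)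
  · rintro B h (h' | h')
    · exact h01 ((hE B h').2.1.symm.trans (hM B h).2)
    · exact h01 ((hN B h').1.symm.trans (hM B h).1)
  · rintro B h (h' | h' | h')
    · exact h01 ((hS B h).2.1.symm.trans (hM B h').2)
    · exact h01 ((hS B h).2.2.symm.trans (hE B h').2.2)
    · exact h01 ((hN B h').1.symm.trans (hS B h).1)
  · rintro B rfl (h' | h' | h' | h')
    · exact h01 (hS _ h').1
    · exact h01 (hM _ h').1
    · exact h01 (hE _ h').1
    · exact h01 (hN _ h').2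

end Pool.NR
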